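import Pool.Agent.W763.PB.Stm

/-!
PB-Y3: blow-up in the limit.
-/

set_option autoImplicit false

open MeasureTheory Filter Topology
open scoped InnerProductSpace BoundedContinuousFunction

namespace Pool.Agent.W391.PB

open Pool.Agent.W763.PB

theorem y3 : S_R1 → S_R3 → S_L3 → S_Y1 → S_Y3 := by
  intro _ hR3 hL3 hY1 k b H _ _ _ U D J E _ _ _ i UE DE h
  obtain ⟨φ, hφ⟩ := h.nz
  obtain ⟨_, _, _, _, hadj⟩ := hL3 H J E i h.iJ h.dense
  have hk := h.hk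
  have hb := h.hb
  have hb1 : 1 ≤ b ^ 1 := by
    have h64 : (1 : ℝ) ≤ b := by nlinarith
    rw [pow_one]
    exact_mod_cast h64
  set y : H 1 := J 0 φ with hy
  have hyx : i 1 y = i 0 φ := h.iJ 0 φ
  set x : E := i 0 φ with hx
  have hxn : ‖x‖ = ‖φ‖ := (i 0).norm_map φ
  have hyn : ‖y‖ = ‖φ‖ := (J 0).norm_map φ
  have hφn : 0 < ‖φ‖ := norm_pos_iff.2 hφ
  -- the constant
  set P : ℕ → ℝ := fun S => ∏ s ∈ Finset.range S, kap k (((1 : ℕ) : ℝ) / ((b ^ (1 + s) : ℕ) : ℝ))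
    with hP
  have hPlo : ∀ S, 1 / 2 ≤ P S := by
    intro S
    have h1 := hR3 k b hk hb S
    have h2 : P S = ∏ s ∈ Finset.range S, kap k ((1 / (b : ℝ)) ^ (s + 1)) := by
      simp only [hP]
      apply Finset.prod_congr rfl
      intro s _
      congr 1
      push_cast
      rw [one_div, one_div, inv_pow, add_comm]
    rw [h2]
    exact h1
  have hY := hY1 k b H U D J E i UE DE h 1 1 hb1
  have hlim0 := hY (U 1 y) y
  have hyy : ⟪U 1 y, (U 1 ^ 1) y⟫_ℂ = ((‖φ‖ ^ 2 : ℝ) : ℂ) := by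
    rw [pow_one, inner_self_eq_norm_sq_to_K, (U 1).norm_map, hyn]
    push_cast
    rfl
  rw [hyy] at hlim0
  have hne : ((‖φ‖ ^ 2 : ℝ) : ℂ) ≠ 0 := by
    have : (‖φ‖ ^ 2 : ℝ) ≠ 0 := by positivity
    exact_mod_cast this
  have hlimc : Tendsto (fun S => ((P S : ℝ) : ℂ)) atTop
      (𝓝 (⟪i 1 (U 1 y), (UE ^ 1) (i 1 y)⟫_ℂ / ((‖φ‖ ^ 2 : ℝ) : ℂ))) := by
    have h1 := hlim0.div_const ((‖φ‖ ^ 2 : ℝ) : ℂ)
    refine h1.congr fun S => ?_
    rw [mul_div_assoc, div_self hne, mul_one]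
  set βc : ℂ := ⟪i 1 (U 1 y), (UE ^ 1) (i 1 y)⟫_ℂ / ((‖φ‖ ^ 2 : ℝ) : ℂ) with hβc
  set β : ℝ := βc.re with hβ
  have hlimr : Tendsto P atTop (𝓝 β) := by
    have h1 := (Complex.continuous_re.tendsto βc).comp hlimc
    refine h1.congr fun S => ?_
    simp
  have hβlo : 1 / 2 ≤ β := ge_of_tendsto' hlimr hPlo
  have hlimβ : Tendsto (fun S => ((P S : ℝ) : ℂ)) atTop (𝓝 (β : ℂ)) :=
    (Complex.continuous_ofReal.tendsto β).comp hlimr
  have hcomp : ∀ a c : H 1, ⟪i 1 a, UE (i 1 c)⟫_ℂ = (β : ℂ) * ⟪a, U 1 c⟫_ℂ := by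
    intro a c
    have h1 := hY a c
    rw [pow_one, pow_one] at h1
    have h2 := hlimβ.mul_const ⟪a, U 1 c⟫_ℂ
    exact tendsto_nhds_unique h1 h2
  -- the compression of the inverse
  have hu : ContinuousLinearMap.adjoint (i 1).toContinuousLinearMap (UE.symm x)
      = (β : ℂ) • (U 1).symm y := by
    apply ext_inner_left ℂ
    intro a
    rw [ContinuousLinearMap.adjoint_inner_right]
    change ⟪i 1 a, UE.symm x⟫_ℂ = _
    have h1 : ⟪i 1 a, UE.symm x⟫_ℂ = ⟪UE (i 1 a), x⟫_ℂ := by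
      rw [← UE.inner_map_map (i 1 a) (UE.symm x), UE.apply_symm_apply]
    have h2 : ⟪UE (i 1 a), x⟫_ℂ = (starRingEnd ℂ) ⟪x, UE (i 1 a)⟫_ℂ := (inner_conj_symm _ _).symm
    rw [h1, h2, ← hyx, hcomp y a, map_mul, Complex.conj_ofReal, inner_conj_symm, inner_smul_right]
    congr 1
    rw [← (U 1).inner_map_map a ((U 1).symm y), (U 1).apply_symm_apply]
  have hD : ∀ w : E, ContinuousLinearMap.adjoint (i 1).toContinuousLinearMap (DE w)
      = D 1 (ContinuousLinearMap.adjoint (i 1).toContinuousLinearMap w) := by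
    intro w
    apply ext_inner_left ℂ
    intro a
    rw [ContinuousLinearMap.adjoint_inner_right, ← (h.lev 1).sa,
      ContinuousLinearMap.adjoint_inner_right]
    change ⟪i 1 a, DE w⟫_ℂ = ⟪i 1 (D 1 a), w⟫_ℂ
    rw [← h.dsa, h.di]
  have hDx : ‖DE x‖ = ‖φ‖ := by
    rw [hx, h.di, (i 0).norm_map, h.d0]
  have hblow := (h.step 0).blow (by simp) φ
  have hlow : Real.sqrt (k - 1) * ‖φ‖ ≤ ‖D 1 ((U 1).symm y)‖ := by
    have h1 : (Real.sqrt (k - 1) * ‖φ‖) ^ 2 ≤ ‖D 1 ((U 1).symm y)‖ ^ 2 := by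
      rw [mul_pow, Real.sq_sqrt (by linarith)]
      exact hblow
    exact le_of_sq_le_sq h1 (norm_nonneg _)
  refine ⟨x, ?_, ?_⟩
  · intro h0
    rw [h0, norm_zero] at hxn
    exact hφn.ne hxn
  · rw [hDx]
    have h1 := hadj 1 (DE (UE.symm x))
    rw [hD, hu, map_smul, norm_smul, Complex.norm_real, Real.norm_of_nonneg (by linarith)] at h1
    refine le_trans ?_ h1
    have h2 : 0 ≤ Real.sqrt (k - 1) * ‖φ‖ := by positivity
    calc 1 / 2 * Real.sqrt (k - 1) * ‖φ‖ = 1 / 2 * (Real.sqrt (k - 1) * ‖φ‖) := by ring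
      _ ≤ β * ‖D 1 ((U 1).symm y)‖ := by
        apply mul_le_mul hβlo hlow h2 (by linarith)

end Pool.Agent.W391.PB


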